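import Pool.Agent.helper76.RNGS.Main

/-!
# Orthogonal strips in relative neighbourhood graphs: the theorem
-/

namespace Helper76.Strip

open scoped InnerProductSpace
open Helper5.RNGraph

/-- the number of the exceptional pairs -/
theorem exc_card {P : Finset E3} {η : ℝ} (h0 : 0 < η) (L : ℕ) (D : Finset E3)
    (N : E3 → E3 → Finset E3) (X : Finset (E3 × E3))
    (hX : ∀ a b, (a, b) ∈ X → b ∈ P ∧ ∃ j ∈ D, ∃ d ∈ D, a ∈ N b j ∧
      ((N b j).filter (fun a' => a' ≠ a ∧ ⟪a' - a, d⟫_ℝ < η * ‖a' - a‖)).card < L) :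
    X.card ≤ P.card * (D.card * D.card) * L := by
  classical
  have h1 : X ⊆ (P ×ˢ (D ×ˢ D)).biUnion (fun t =>
      ((N t.1 t.2.1).filter (fun a => ((N t.1 t.2.1).filter
        (fun a' => a' ≠ a ∧ ⟪a' - a, t.2.2⟫_ℝ < η * ‖a' - a‖)).card < L)).image
          (fun a => (a, t.1))) := by
    rintro ⟨a, b⟩ hx
    obtain ⟨hb, j, hj, d, hd, ha, hlt⟩ := hX a b hx
    rw [Finset.mem_biUnion]
    refine ⟨(b, j, d), Finset.mem_product.2 ⟨hb, Finset.mem_product.2 ⟨hj, hd⟩⟩, ?_⟩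
    rw [Finset.mem_image]
    exact ⟨a, Finset.mem_filter.2 ⟨ha, hlt⟩, rfl⟩
  refine (Finset.card_le_card h1).trans ?_
  refine (Finset.card_biUnion_le_card_mul _ _ L ?_).trans ?_
  · rintro ⟨b, j, d⟩ _
    refine Finset.card_image_le.trans ?_
    refine pointed_card (N b j) d h0 L _ ?_
    intro a ha
    exact Finset.mem_filter.1 ha
  · rw [Finset.card_product, Finset.card_product]

theorem transfer {v vf p : E3} {η t s : ℝ} (hs : |s| = 1) (h : ‖v - vf‖ ≤ η)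
    (h1 : t * ‖p‖ ≤ s * ⟪v, p⟫_ℝ) : (t - η) * ‖p‖ ≤ s * ⟪vf, p⟫_ℝ := by
  have e1 : s * ⟪vf, p⟫_ℝ = s * ⟪v, p⟫_ℝ - s * ⟪v - vf, p⟫_ℝ := by
    rw [inner_sub_left]
    ring
  have e2 : |s * ⟪v - vf, p⟫_ℝ| ≤ η * ‖p‖ := by
    rw [abs_mul, hs, one_mul]
    exact (abs_real_inner_le_norm _ _).trans (mul_le_mul_of_nonneg_right h (norm_nonneg _))
  have e3 := (abs_le.1 e2).2
  rw [e1]
  linarith

theorem transfer_abs {v vf p : E3} {η t : ℝ} (h : ‖v - vf‖ ≤ η)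
    (h1 : t * ‖p‖ ≤ |⟪v, p⟫_ℝ|) : (t - η) * ‖p‖ ≤ |⟪vf, p⟫_ℝ| := by
  rcases abs_cases (⟪v, p⟫_ℝ) with ⟨h2, -⟩ | ⟨h2, -⟩
  · have e := transfer (s := 1) (t := t) (p := p) (by norm_num) h
      (by rw [one_mul, ← h2]; exact h1)
    rw [one_mul] at e
    exact e.trans (le_abs_self _)
  · have e := transfer (s := -1) (t := t) (p := p) (by norm_num) h
      (by rw [neg_one_mul, ← h2]; exact h1)
    rw [neg_one_mul] at e
    exact e.trans (neg_le_abs _)

theorem side {v p x : E3} {η t s : ℝ} (hs : |s| = 1) (hp : 0 < ‖p‖) (ht : 2 * η ≤ t)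
    (hx : x = -(s • v)) (h1 : t * ‖p‖ ≤ |⟪v, p⟫_ℝ|) (h2 : ⟪p, x⟫_ℝ < 2 * η * ‖p‖) :
    t * ‖p‖ ≤ s * ⟪v, p⟫_ℝ := by
  have e1 : ⟪p, x⟫_ℝ = -(s * ⟪v, p⟫_ℝ) := by
    rw [hx, inner_neg_right, inner_smul_right, real_inner_comm]
  have e2 : |s * ⟪v, p⟫_ℝ| = |⟪v, p⟫_ℝ| := by rw [abs_mul, hs, one_mul]
  rw [← e2] at h1
  rcases abs_cases (s * ⟪v, p⟫_ℝ) with ⟨h3, -⟩ | ⟨h3, -⟩
  · rw [← h3]
    exact h1
  · exfalso
    have e3 : 2 * η * ‖p‖ ≤ t * ‖p‖ := mul_le_mul_of_nonneg_right ht hp.le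
    linarith

/-- The decomposition of the edges into few exceptional edges and boundedly many strips. -/
theorem main {ε : ℝ} (hε : 0 < ε) :
    ∃ (K C : ℕ) (ρ : ℝ) (u v w : Fin K → E3), 0 < ρ ∧ ρ ≤ ε ∧
      (∀ i, Fr (u i) (v i) (w i)) ∧
      ∀ (P : Finset E3) (L : ℕ), 1 ≤ L →
        ∃ (X : Finset (E3 × E3)) (T : Fin K → Finset (E3 × E3)),
          X.card ≤ C * L * P.card ∧
          (∀ a b, (relNbhd P).Adj a b → (a, b) ∈ X ∨ ∃ i, (a, b) ∈ T i) ∧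
          ∀ i, IsStrip P ε ρ L (u i) (v i) (w i) (T i) := by
  classical
  obtain ⟨η, hη⟩ : ∃ η : ℝ, η = min (1 / 100) (ε / 10) := ⟨_, rfl⟩
  have h0 : 0 < η := by
    rw [hη]
    exact lt_min (by norm_num) (by linarith)
  have h1 : η ≤ 1 / 100 := by rw [hη]; exact min_le_left _ _
  have h2 : η ≤ ε / 10 := by rw [hη]; exact min_le_right _ _
  have hηη := sq_le_div h0 h1
  have hη2 : 2 * η < 1 := by linarith
  obtain ⟨D, hD1, hD⟩ := exists_net h0
  obtain ⟨F, hF1, hF⟩ := exists_frames h0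
  have hcls : ∀ x : E3, ∃ d, x ≠ 0 → d ∈ D ∧ ‖‖x‖⁻¹ • x - d‖ ≤ η := by
    intro x
    by_cases hx : x = 0
    · exact ⟨0, fun h => absurd hx h⟩
    · have hn : ‖‖x‖⁻¹ • x‖ = 1 := by
        rw [norm_smul, norm_inv, norm_norm, inv_mul_cancel₀ (norm_ne_zero_iff.2 hx)]
      obtain ⟨d, hd, hxd⟩ := hD _ hn
      exact ⟨d, fun _ => ⟨hd, hxd⟩⟩
  choose c hc using hcls
  obtain ⟨e⟩ : Nonempty (Fin (D ×ˢ F).card ≃ ↥(D ×ˢ F)) := ⟨(D ×ˢ F).equivFin.symm⟩
  refine ⟨(D ×ˢ F).card, 2 * (D.card * D.card), 2 * η, fun i => (e i).1.2.1,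
    fun i => (e i).1.2.2.1, fun i => (e i).1.2.2.2, by linarith, by linarith,
    fun i => hF1 _ (Finset.mem_product.1 (e i).2).2, ?_⟩
  intro P L hL
  -- the classes of the neighbours
  obtain ⟨NB, hNB⟩ : ∃ NB : E3 → E3 → Finset E3, NB = fun b j =>
    P.filter (fun a => (relNbhd P).Adj a b ∧ c (b - a) = j) := ⟨_, rfl⟩
  obtain ⟨NA, hNA⟩ : ∃ NA : E3 → E3 → Finset E3, NA = fun a j =>
    P.filter (fun b => (relNbhd P).Adj a b ∧ c (b - a) = j) := ⟨_, rfl⟩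
  obtain ⟨E1, hE1⟩ : ∃ E1 : E3 → E3 → Prop, E1 = fun a b => ∃ d ∈ D,
    ((NB b (c (b - a))).filter (fun a' => a' ≠ a ∧ ⟪a' - a, d⟫_ℝ < η * ‖a' - a‖)).card < L :=
    ⟨_, rfl⟩
  obtain ⟨E2, hE2⟩ : ∃ E2 : E3 → E3 → Prop, E2 = fun a b => ∃ d ∈ D,
    ((NA a (c (b - a))).filter (fun b' => b' ≠ b ∧ ⟪b' - b, d⟫_ℝ < η * ‖b' - b‖)).card < L :=
    ⟨_, rfl⟩
  obtain ⟨X1, hX1⟩ : ∃ X1 : Finset (E3 × E3), X1 =
    (P ×ˢ P).filter (fun x => (relNbhd P).Adj x.1 x.2 ∧ E1 x.1 x.2) := ⟨_, rfl⟩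
  obtain ⟨X2, hX2⟩ : ∃ X2 : Finset (E3 × E3), X2 =
    (P ×ˢ P).filter (fun x => (relNbhd P).Adj x.1 x.2 ∧ E2 x.1 x.2) := ⟨_, rfl⟩
  have hcD : ∀ {a b : E3}, (relNbhd P).Adj a b →
      c (b - a) ∈ D ∧ ‖‖b - a‖⁻¹ • (b - a) - c (b - a)‖ ≤ η := fun {a b} h =>
    hc (b - a) (sub_ne_zero.2 h.2.2.1.symm)
  have hcone : ∀ {a a' b : E3}, (relNbhd P).Adj a b → (relNbhd P).Adj a' b →
      c (b - a') = c (b - a) → dist a a' ≤ 2 * η * dist a b := by
    intro a a' b h h' hcc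
    refine cone_near h h' hη2 ?_
    have e1 := (hcD h).2
    have e2 := (hcD h').2
    rw [hcc] at e2
    have e3 : (‖b - a‖⁻¹ • (b - a)) - (‖b - a'‖⁻¹ • (b - a')) =
        (‖b - a‖⁻¹ • (b - a) - c (b - a)) - (‖b - a'‖⁻¹ • (b - a') - c (b - a)) := by abel
    rw [e3]
    exact (norm_sub_le _ _).trans (by linarith)
  have hcone' : ∀ {a b b' : E3}, (relNbhd P).Adj a b → (relNbhd P).Adj a b' →
      c (b' - a) = c (b - a) → dist b b' ≤ 2 * η * dist a b := by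
    intro a b b' h h' hcc
    have e1 := (hcD h).2
    have e2 := (hcD h').2
    rw [hcc] at e2
    have e3 : (‖a - b‖⁻¹ • (a - b)) - (‖a - b'‖⁻¹ • (a - b')) =
        (‖b' - a‖⁻¹ • (b' - a) - c (b - a)) - (‖b - a‖⁻¹ • (b - a) - c (b - a)) := by
      rw [norm_sub_rev a b, norm_sub_rev a b', ← neg_sub b a, ← neg_sub b' a, smul_neg, smul_neg]
      abel
    have e4 := cone_near h.symm h'.symm hη2 (by
      rw [e3]
      exact (norm_sub_le _ _).trans (by linarith))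
    rw [dist_comm b a] at e4
    exact e4
  refine ⟨X1 ∪ X2, fun i => (P ×ˢ P).filter (fun x => (relNbhd P).Adj x.1 x.2 ∧
    ¬ E1 x.1 x.2 ∧ ¬ E2 x.1 x.2 ∧ c (x.2 - x.1) = (e i).1.1 ∧
    ∃ u v, Fr u v (‖x.2 - x.1‖⁻¹ • (x.2 - x.1)) ∧
      (∀ a', (relNbhd P).Adj a' x.2 → dist x.1 a' ≤ 2 * η * dist x.1 x.2 →
        (1 - 400 * η ^ 2) * ‖a' - x.1‖ ≤ |⟪v, a' - x.1⟫_ℝ|) ∧
      (∀ b', (relNbhd P).Adj x.1 b' → dist x.2 b' ≤ 2 * η * dist x.1 x.2 →
        (1 - 400 * η ^ 2) * ‖b' - x.2‖ ≤ |⟪u, b' - x.2⟫_ℝ|) ∧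
      ‖u - (e i).1.2.1‖ ≤ η ∧ ‖v - (e i).1.2.2.1‖ ≤ η ∧
      ‖(‖x.2 - x.1‖⁻¹ • (x.2 - x.1)) - (e i).1.2.2.2‖ ≤ η), ?_, ?_, ?_⟩
  · -- the number of the exceptional pairs
    have c1 : X1.card ≤ P.card * (D.card * D.card) * L := by
      refine exc_card h0 L D NB X1 ?_
      intro a b hab
      rw [hX1, Finset.mem_filter] at hab
      obtain ⟨hP, hadj, hex⟩ := hab
      rw [hE1] at hex
      obtain ⟨d, hd, hlt⟩ := hex
      refine ⟨(Finset.mem_product.1 hP).2, c (b - a), (hcD hadj).1, d, hd, ?_, hlt⟩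
      rw [hNB]
      exact Finset.mem_filter.2 ⟨(Finset.mem_product.1 hP).1, hadj, rfl⟩
    have c2 : X2.card ≤ P.card * (D.card * D.card) * L := by
      have c3 : (X2.image Prod.swap).card = X2.card :=
        Finset.card_image_of_injective _ Prod.swap_injective
      rw [← c3]
      refine exc_card h0 L D NA _ ?_
      intro b a hba
      rw [Finset.mem_image] at hba
      obtain ⟨⟨a', b'⟩, hab, hsw⟩ := hba
      obtain ⟨rfl, rfl⟩ := Prod.mk.inj hsw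
      rw [hX2, Finset.mem_filter] at hab
      obtain ⟨hP, hadj, hex⟩ := hab
      rw [hE2] at hex
      obtain ⟨d, hd, hlt⟩ := hex
      refine ⟨(Finset.mem_product.1 hP).1, c (b' - a'), (hcD hadj).1, d, hd, ?_, hlt⟩
      rw [hNA]
      exact Finset.mem_filter.2 ⟨(Finset.mem_product.1 hP).2, hadj, rfl⟩
    calc (X1 ∪ X2).card ≤ X1.card + X2.card := Finset.card_union_le _ _
      _ ≤ P.card * (D.card * D.card) * L + P.card * (D.card * D.card) * L := add_le_add c1 c2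
      _ = 2 * (D.card * D.card) * L * P.card := by ring
  · -- the other pairs are in strips
    intro a b hab
    by_cases hx : (a, b) ∈ X1 ∪ X2
    · exact Or.inl hx
    right
    have hP : (a, b) ∈ P ×ˢ P := Finset.mem_product.2 ⟨hab.1, hab.2.1⟩
    have hn1 : ¬ E1 a b := fun h => hx (Finset.mem_union.2 (Or.inl (by
      rw [hX1]
      exact Finset.mem_filter.2 ⟨hP, hab, h⟩)))
    have hn2 : ¬ E2 a b := fun h => hx (Finset.mem_union.2 (Or.inr (by
      rw [hX2]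
      exact Finset.mem_filter.2 ⟨hP, hab, h⟩)))
    obtain ⟨u, v, hfr, hv, hu⟩ := edge_frame h0 h1 hab
      (by
        intro x hx
        obtain ⟨d, hd, hxd⟩ := hD x hx
        have hcard : L ≤ ((NB b (c (b - a))).filter
            (fun a' => a' ≠ a ∧ ⟪a' - a, d⟫_ℝ < η * ‖a' - a‖)).card := by
          by_contra hlt
          push Not at hlt
          exact hn1 (by rw [hE1]; exact ⟨d, hd, hlt⟩)
        obtain ⟨a', ha'⟩ : ((NB b (c (b - a))).filter
            (fun a' => a' ≠ a ∧ ⟪a' - a, d⟫_ℝ < η * ‖a' - a‖)).Nonempty := by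
          rw [← Finset.card_pos]
          omega
        rw [Finset.mem_filter, hNB, Finset.mem_filter] at ha'
        obtain ⟨⟨-, hadj, hcc⟩, hne, hlt⟩ := ha'
        refine ⟨a', hadj, hne, hcone hab hadj hcc, ?_⟩
        have e1 : ⟪a' - a, x⟫_ℝ = ⟪a' - a, d⟫_ℝ + ⟪a' - a, x - d⟫_ℝ := by
          rw [← inner_add_right]
          congr 1
          abel
        have e2 : ⟪a' - a, x - d⟫_ℝ ≤ ‖a' - a‖ * ‖x - d‖ := real_inner_le_norm _ _
        have e3 : ‖a' - a‖ * ‖x - d‖ ≤ ‖a' - a‖ * η :=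
          mul_le_mul_of_nonneg_left hxd (norm_nonneg _)
        linarith)
      (by
        intro x hx
        obtain ⟨d, hd, hxd⟩ := hD x hx
        have hcard : L ≤ ((NA a (c (b - a))).filter
            (fun b' => b' ≠ b ∧ ⟪b' - b, d⟫_ℝ < η * ‖b' - b‖)).card := by
          by_contra hlt
          push Not at hlt
          exact hn2 (by rw [hE2]; exact ⟨d, hd, hlt⟩)
        obtain ⟨b', hb'⟩ : ((NA a (c (b - a))).filter
            (fun b' => b' ≠ b ∧ ⟪b' - b, d⟫_ℝ < η * ‖b' - b‖)).Nonempty := by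
          rw [← Finset.card_pos]
          omega
        rw [Finset.mem_filter, hNA, Finset.mem_filter] at hb'
        obtain ⟨⟨-, hadj, hcc⟩, hne, hlt⟩ := hb'
        refine ⟨b', hadj, hne, hcone' hab hadj hcc, ?_⟩
        have e1 : ⟪b' - b, x⟫_ℝ = ⟪b' - b, d⟫_ℝ + ⟪b' - b, x - d⟫_ℝ := by
          rw [← inner_add_right]
          congr 1
          abel
        have e2 : ⟪b' - b, x - d⟫_ℝ ≤ ‖b' - b‖ * ‖x - d‖ := real_inner_le_norm _ _
        have e3 : ‖b' - b‖ * ‖x - d‖ ≤ ‖b' - b‖ * η :=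
          mul_le_mul_of_nonneg_left hxd (norm_nonneg _)
        linarith)
    obtain ⟨f, hf, hf1, hf2, hf3⟩ := hF _ _ _ hfr
    have hmem : (c (b - a), f) ∈ D ×ˢ F := Finset.mem_product.2 ⟨(hcD hab).1, hf⟩
    refine ⟨e.symm ⟨_, hmem⟩, Finset.mem_filter.2 ⟨hP, hab, hn1, hn2, ?_, u, v, hfr, hv, hu, ?_⟩⟩
    · rw [Equiv.apply_symm_apply]
    · rw [Equiv.apply_symm_apply]
      exact ⟨hf1, hf2, hf3⟩
  · -- the strips
    intro i
    have hlt : ∀ {a b : E3}, (relNbhd P).Adj a b → 2 * η * dist a b < dist a b := by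
      intro a b h
      have hpos : 0 < dist a b := dist_pos.2 h.2.2.1
      nlinarith
    have hηε : 400 * η ^ 2 + η ≤ ε := by linarith
    have hge : ∀ r : ℝ, 0 ≤ r → (1 - ε) * r ≤ (1 - 400 * η ^ 2 - η) * r := fun r hr =>
      mul_le_mul_of_nonneg_right (by linarith) hr
    have ht : 2 * η ≤ 1 - 400 * η ^ 2 := by linarith
    refine ⟨?_, ?_, ?_, ?_, ?_, ?_, ?_, ?_, fun a b h a' b' ha' hb' hd hd' =>
      Helper76.Strip.polar (Finset.mem_filter.1 h).2.1 ha' hb'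
        (hd.trans_lt (hlt (Finset.mem_filter.1 h).2.1))
        (hd'.trans_lt (hlt (Finset.mem_filter.1 h).2.1))⟩
    · intro a b h
      exact (Finset.mem_filter.1 h).2.1
    · intro a b h
      obtain ⟨hadj, -, -, -, u, v, hfr, -, -, -, -, h3⟩ := (Finset.mem_filter.1 h).2
      have hr : 0 < ‖b - a‖ := norm_pos_iff.2 (sub_ne_zero.2 hadj.2.2.1.symm)
      have e1 : ⟪‖b - a‖⁻¹ • (b - a), b - a⟫_ℝ = ‖b - a‖ := by
        rw [inner_smul_left, real_inner_self_eq_norm_sq]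
        simp only [conj_trivial]
        field_simp
      have e2 := transfer (s := 1) (t := 1) (p := b - a) (by norm_num) h3
        (by rw [one_mul, one_mul]; exact e1.ge)
      rw [one_mul] at e2
      rw [dist_comm, dist_eq_norm]
      refine le_trans ?_ e2
      exact mul_le_mul_of_nonneg_right (by linarith [sq_nonneg η]) hr.le
    · intro a a' b h h'
      obtain ⟨hadj, -, -, hc1, -⟩ := (Finset.mem_filter.1 h).2
      obtain ⟨hadj', -, -, hc2, -⟩ := (Finset.mem_filter.1 h').2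
      exact hcone hadj hadj' (hc2.trans hc1.symm)
    · intro a b b' h h'
      obtain ⟨hadj, -, -, hc1, -⟩ := (Finset.mem_filter.1 h).2
      obtain ⟨hadj', -, -, hc2, -⟩ := (Finset.mem_filter.1 h').2
      exact hcone' hadj hadj' (hc2.trans hc1.symm)
    · intro a b h a' ha' hd
      obtain ⟨hadj, -, -, -, u, v, hfr, hv, hu, h1', h2', h3'⟩ := (Finset.mem_filter.1 h).2
      refine ⟨dist_eq_of_near hadj ha' (hd.trans_lt (hlt hadj)), ?_⟩
      have e := transfer_abs h2' (hv a' ha' hd)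
      rw [dist_comm, dist_eq_norm]
      exact (hge _ (norm_nonneg _)).trans e
    · intro a b h b' hb' hd
      obtain ⟨hadj, -, -, -, u, v, hfr, hv, hu, h1', h2', h3'⟩ := (Finset.mem_filter.1 h).2
      constructor
      · have e := dist_eq_of_near hadj.symm hb'.symm (by
          rw [dist_comm b a]
          exact hd.trans_lt (hlt hadj))
        rw [dist_comm b' a, dist_comm b a] at e
        exact e
      · have e := transfer_abs h1' (hu b' hb' hd)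
        rw [dist_comm, dist_eq_norm]
        exact (hge _ (norm_nonneg _)).trans e
    · intro a b h s hs
      obtain ⟨hadj, hn1, -, -, u, v, hfr, hv, hu, h1', h2', h3'⟩ := (Finset.mem_filter.1 h).2
      have hx : ‖-(s • v)‖ = 1 := by
        rw [norm_neg, norm_smul, Real.norm_eq_abs, hs, one_mul]
        exact hfr.2.1
      obtain ⟨d, hd, hxd⟩ := hD _ hx
      refine ⟨(NB b (c (b - a))).filter
        (fun a' => a' ≠ a ∧ ⟪a' - a, d⟫_ℝ < η * ‖a' - a‖), ?_, ?_⟩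
      · by_contra hlt'
        push Not at hlt'
        exact hn1 (by rw [hE1]; exact ⟨d, hd, hlt'⟩)
      · intro a' ha'
        rw [Finset.mem_filter, hNB, Finset.mem_filter] at ha'
        obtain ⟨⟨-, hadj', hcc⟩, hne, hlt'⟩ := ha'
        have hdd := hcone hadj hadj' hcc
        refine ⟨hadj', hne, hdd, ?_⟩
        have hr : 0 < ‖a' - a‖ := norm_pos_iff.2 (sub_ne_zero.2 hne)
        have e1 : ⟪a' - a, -(s • v)⟫_ℝ = ⟪a' - a, d⟫_ℝ + ⟪a' - a, -(s • v) - d⟫_ℝ := by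
          rw [← inner_add_right]
          congr 1
          abel
        have e2 : ⟪a' - a, -(s • v) - d⟫_ℝ ≤ ‖a' - a‖ * ‖-(s • v) - d‖ := real_inner_le_norm _ _
        have e3 : ‖a' - a‖ * ‖-(s • v) - d‖ ≤ ‖a' - a‖ * η :=
          mul_le_mul_of_nonneg_left hxd (norm_nonneg _)
        have e4 := side hs hr ht rfl (hv a' hadj' hdd) (by linarith)
        have e5 := transfer hs h2' e4
        rw [dist_comm, dist_eq_norm]
        exact (hge _ (norm_nonneg _)).trans e5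
    · intro a b h s hs
      obtain ⟨hadj, -, hn2, -, u, v, hfr, hv, hu, h1', h2', h3'⟩ := (Finset.mem_filter.1 h).2
      have hx : ‖-(s • u)‖ = 1 := by
        rw [norm_neg, norm_smul, Real.norm_eq_abs, hs, one_mul]
        exact hfr.1
      obtain ⟨d, hd, hxd⟩ := hD _ hx
      refine ⟨(NA a (c (b - a))).filter
        (fun b' => b' ≠ b ∧ ⟪b' - b, d⟫_ℝ < η * ‖b' - b‖), ?_, ?_⟩
      · by_contra hlt'
        push Not at hlt'
        exact hn2 (by rw [hE2]; exact ⟨d, hd, hlt'⟩)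
      · intro b' hb'
        rw [Finset.mem_filter, hNA, Finset.mem_filter] at hb'
        obtain ⟨⟨-, hadj', hcc⟩, hne, hlt'⟩ := hb'
        have hdd := hcone' hadj hadj' hcc
        refine ⟨hadj', hne, hdd, ?_⟩
        have hr : 0 < ‖b' - b‖ := norm_pos_iff.2 (sub_ne_zero.2 hne)
        have e1 : ⟪b' - b, -(s • u)⟫_ℝ = ⟪b' - b, d⟫_ℝ + ⟪b' - b, -(s • u) - d⟫_ℝ := by
          rw [← inner_add_right]
          congr 1
          abel
        have e2 : ⟪b' - b, -(s • u) - d⟫_ℝ ≤ ‖b' - b‖ * ‖-(s • u) - d‖ := real_inner_le_norm _ _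
        have e3 : ‖b' - b‖ * ‖-(s • u) - d‖ ≤ ‖b' - b‖ * η :=
          mul_le_mul_of_nonneg_left hxd (norm_nonneg _)
        have e4 := side hs hr ht rfl (hu b' hadj' hdd) (by linarith)
        have e5 := transfer hs h1' e4
        rw [dist_comm, dist_eq_norm]
        exact (hge _ (norm_nonneg _)).trans e5

end Helper76.Strip
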