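import Pool.Agent.helper76.RNGS.Loc

/-!
# Orthogonal strips in relative neighbourhood graphs: edges at a common vertex
-/

namespace Helper76.Strip

open scoped InnerProductSpace
open Helper5.RNGraph

variable {P : Finset E3}

/-- two edges at a common vertex with nearby second ends have the same length -/
theorem dist_eq_of_near {a a' b : E3} (h : (relNbhd P).Adj a b) (h' : (relNbhd P).Adj a' b)
    (hd : dist a a' < dist a b) : dist a' b = dist a b := by
  obtain ⟨ha, hb, hab, hl⟩ := h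
  obtain ⟨ha', -, hab', hl'⟩ := h'
  rcases lt_trichotomy (dist a' b) (dist a b) with hlt | heq | hgt
  · exfalso
    have hne : a' ≠ a := by
      rintro rfl
      exact lt_irrefl _ hlt
    refine hl a' ha' hne hab' (max_lt hd ?_)
    rw [dist_comm b a']
    exact hlt
  · exact heq
  · exfalso
    have hne : a ≠ a' := by
      rintro rfl
      exact lt_irrefl _ hgt
    refine hl' a ha hne hab (max_lt ?_ ?_)
    · rw [dist_comm a' a]
      exact hd.trans hgt
    · rw [dist_comm b a]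
      exact hgt

theorem dist_le_opp {a a' b b' : E3} (h : (relNbhd P).Adj a b) (h1 : (relNbhd P).Adj a' b)
    (h2 : (relNbhd P).Adj a b') (hd1 : dist a a' < dist a b) (hd2 : dist b b' < dist a b) :
    dist a b ≤ dist a' b' := by
  have e1 : dist a' b = dist a b := dist_eq_of_near h h1 hd1
  have e2 : dist a b' = dist a b := by
    have := dist_eq_of_near h.symm h2.symm (by rw [dist_comm b a]; exact hd2)
    rw [dist_comm b' a, dist_comm b a] at this
    exact this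
  by_contra hc
  push Not at hc
  obtain ⟨-, -, -, hl⟩ := h1
  refine hl b' h2.2.1 ?_ ?_ (max_lt ?_ ?_)
  · rintro rfl
    rw [e2] at hd1
    exact lt_irrefl _ hd1
  · rintro rfl
    rw [e1] at hc
    exact lt_irrefl _ hc
  · rw [e1]
    exact hc
  · rw [e1]
    exact hd2

theorem polar_id (r p q : E3) :
    ‖r + (p - q)‖ ^ 2 = ‖r + p‖ ^ 2 + ‖r - q‖ ^ 2 - ‖r‖ ^ 2 - 2 * ⟪p, q⟫_ℝ := by
  rw [norm_add_sq_real r (p - q), norm_add_sq_real r p, norm_sub_sq_real r q,
    norm_sub_sq_real p q, inner_sub_right]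
  ring

theorem polar {a a' b b' : E3} (h : (relNbhd P).Adj a b) (h1 : (relNbhd P).Adj a' b)
    (h2 : (relNbhd P).Adj a b') (hd1 : dist a a' < dist a b) (hd2 : dist b b' < dist a b) :
    ⟪a' - a, b' - b⟫_ℝ ≤ 0 := by
  have e0 := dist_le_opp h h1 h2 hd1 hd2
  have e1 : dist a' b = dist a b := dist_eq_of_near h h1 hd1
  have e2 : dist a b' = dist a b := by
    have := dist_eq_of_near h.symm h2.symm (by rw [dist_comm b a]; exact hd2)
    rw [dist_comm b' a, dist_comm b a] at this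
    exact this
  rw [dist_eq_norm, dist_eq_norm] at e0 e1 e2
  have f0 : ‖a - b‖ ^ 2 ≤ ‖a' - b'‖ ^ 2 := pow_le_pow_left₀ (norm_nonneg _) e0 2
  have g0 : a' - b' = (a - b) + ((a' - a) - (b' - b)) := by abel
  have g1 : a' - b = (a - b) + (a' - a) := by abel
  have g2 : a - b' = (a - b) - (b' - b) := by abel
  have f1 : ‖a' - b‖ ^ 2 = ‖a - b‖ ^ 2 := by rw [e1]
  have f2 : ‖a - b'‖ ^ 2 = ‖a - b‖ ^ 2 := by rw [e2]
  rw [g0, polar_id, ← g1, ← g2, f1, f2] at f0
  linarith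

/-- nearly orthogonal to the edge -/
theorem near_orth {a a' b : E3} (h : (relNbhd P).Adj a b) (h1 : (relNbhd P).Adj a' b) {η : ℝ}
    (hη : 2 * η < 1) (hd : dist a a' ≤ 2 * η * dist a b) :
    |⟪b - a, a' - a⟫_ℝ| ≤ η * ‖b - a‖ * ‖a' - a‖ := by
  have hab : 0 < dist a b := dist_pos.2 h.2.2.1
  have e1 : dist a' b = dist a b := dist_eq_of_near h h1 (hd.trans_lt (by nlinarith))
  rw [dist_eq_norm, dist_eq_norm] at e1 hd
  have g1 : a' - b = (a - b) + (a' - a) := by abel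
  have f1 : ‖a' - b‖ ^ 2 = ‖a - b‖ ^ 2 := by rw [e1]
  rw [g1, norm_add_sq_real] at f1
  have g2 : ⟪b - a, a' - a⟫_ℝ = -⟪a - b, a' - a⟫_ℝ := by
    rw [← inner_neg_left, neg_sub]
  have g3 : ⟪b - a, a' - a⟫_ℝ = ‖a' - a‖ ^ 2 / 2 := by
    rw [g2]
    linarith
  rw [g3, abs_of_nonneg (by positivity), norm_sub_rev b a]
  have g4 : ‖a' - a‖ ≤ 2 * η * ‖a - b‖ := by
    rw [norm_sub_rev]
    exact hd
  have g5 : ‖a' - a‖ * ‖a' - a‖ ≤ 2 * η * ‖a - b‖ * ‖a' - a‖ :=
    mul_le_mul_of_nonneg_right g4 (norm_nonneg _)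
  rw [sq]
  linarith

/-- edges at `b` with nearly the same direction -/
theorem cone_near {a a' b : E3} (h : (relNbhd P).Adj a b) (h1 : (relNbhd P).Adj a' b) {η : ℝ}
    (hη : 2 * η < 1)
    (hw : ‖(‖b - a‖⁻¹ • (b - a)) - (‖b - a'‖⁻¹ • (b - a'))‖ ≤ 2 * η) :
    dist a a' ≤ 2 * η * dist a b := by
  have key : ∀ {a a' : E3}, (relNbhd P).Adj a b → (relNbhd P).Adj a' b →
      ‖(‖b - a‖⁻¹ • (b - a)) - (‖b - a'‖⁻¹ • (b - a'))‖ ≤ 2 * η → ‖b - a‖ ≤ ‖b - a'‖ →
      dist a a' ≤ 2 * η * dist a b := by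
    intro a a' h h1 hw hle
    have ra : 0 < ‖b - a‖ := norm_pos_iff.2 (sub_ne_zero.2 h.2.2.1.symm)
    have ra' : 0 < ‖b - a'‖ := norm_pos_iff.2 (sub_ne_zero.2 h1.2.2.1.symm)
    have e1 : a' - a = ‖b - a‖ • ((‖b - a‖⁻¹ • (b - a)) - (‖b - a'‖⁻¹ • (b - a'))) -
        (‖b - a'‖ - ‖b - a‖) • (‖b - a'‖⁻¹ • (b - a')) := by
      rw [smul_sub, smul_smul, mul_inv_cancel₀ ra.ne', one_smul, sub_smul, smul_smul ‖b - a'‖,
        mul_inv_cancel₀ ra'.ne', one_smul]
      abel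
    have e2 : ‖a' - a‖ ≤ ‖b - a‖ * (2 * η) + (‖b - a'‖ - ‖b - a‖) := by
      rw [e1]
      refine (norm_sub_le _ _).trans ?_
      rw [norm_smul, norm_smul, norm_norm, norm_smul, norm_inv, norm_norm,
        inv_mul_cancel₀ ra'.ne', mul_one, Real.norm_eq_abs, abs_of_nonneg (sub_nonneg.2 hle)]
      have := mul_le_mul_of_nonneg_left hw ra.le
      linarith
    have e3 : ‖b - a‖ * (2 * η) < ‖b - a‖ * 1 := mul_lt_mul_of_pos_left hη ra
    have e4 : dist a' b = dist a b := by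
      refine (dist_eq_of_near h1 h ?_).symm
      rw [dist_eq_norm, dist_eq_norm, norm_sub_rev a' b]
      linarith
    rw [dist_eq_norm, dist_eq_norm, norm_sub_rev a' b, norm_sub_rev a b] at e4
    rw [dist_eq_norm, dist_eq_norm, norm_sub_rev a a', norm_sub_rev a b]
    rw [e4] at e2
    linarith
  rcases le_total ‖b - a‖ ‖b - a'‖ with hle | hle
  · exact key h h1 hw hle
  · have e1 := key h1 h (by rw [norm_sub_rev]; exact hw) hle
    have e2 : dist a' b = dist a b := by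
      have hpos : 0 < dist a' b := dist_pos.2 h1.2.2.1
      exact (dist_eq_of_near h1 h (e1.trans_lt (by nlinarith))).symm
    rw [dist_comm a a', ← e2]
    exact e1

/-- the number of the extreme points in a given direction -/
theorem pointed_card (N : Finset E3) (d : E3) {η : ℝ} (h0 : 0 < η) (L : ℕ) (S : Finset E3)
    (hS : ∀ a ∈ S, a ∈ N ∧
      (N.filter (fun a' => a' ≠ a ∧ ⟪a' - a, d⟫_ℝ < η * ‖a' - a‖)).card < L) :
    S.card ≤ L := by
  by_contra hc
  push Not at hc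
  have hne : S.Nonempty := by
    rw [← Finset.card_pos]
    omega
  obtain ⟨a, ha, hmax⟩ := Finset.exists_max_image S (fun x => ⟪x, d⟫_ℝ) hne
  have h1 : S.erase a ⊆ N.filter (fun a' => a' ≠ a ∧ ⟪a' - a, d⟫_ℝ < η * ‖a' - a‖) := by
    intro x hx
    obtain ⟨hxa, hxS⟩ := Finset.mem_erase.1 hx
    refine Finset.mem_filter.2 ⟨(hS x hxS).1, hxa, ?_⟩
    have e1 := hmax x hxS
    have e2 : 0 < ‖x - a‖ := norm_pos_iff.2 (sub_ne_zero.2 hxa)
    rw [inner_sub_left]
    have e3 : 0 < η * ‖x - a‖ := mul_pos h0 e2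
    linarith
  have h2 := Finset.card_le_card h1
  rw [Finset.card_erase_of_mem ha] at h2
  have h3 := (hS a ha).2
  omega

end Helper76.Strip
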