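import Pool.Agent.helper5.RNG.Defs

/-!
# Orthogonal strips in relative neighbourhood graphs: vectors
-/

namespace Helper76.Strip

open scoped InnerProductSpace

/-- three-dimensional Euclidean space -/
abbrev E3 := EuclideanSpace ℝ (Fin 3)

/-- orthonormal frames -/
def Fr (u v w : E3) : Prop :=
  ‖u‖ = 1 ∧ ‖v‖ = 1 ∧ ‖w‖ = 1 ∧ ⟪u, v⟫_ℝ = 0 ∧ ⟪u, w⟫_ℝ = 0 ∧ ⟪v, w⟫_ℝ = 0

theorem inner3 (x y : E3) : ⟪x, y⟫_ℝ = x 0 * y 0 + x 1 * y 1 + x 2 * y 2 := by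
  simp only [PiLp.inner_apply, Fin.sum_univ_three, RCLike.inner_apply, conj_trivial]
  ring

theorem norm3 (x : E3) : ‖x‖ ^ 2 = x 0 ^ 2 + x 1 ^ 2 + x 2 ^ 2 := by
  rw [← real_inner_self_eq_norm_sq, inner3]
  ring

theorem norm_one_iff (x : E3) : ‖x‖ = 1 ↔ ‖x‖ ^ 2 = 1 := by
  constructor
  · intro h
    rw [h]
    norm_num
  · intro h
    nlinarith [norm_nonneg x]

theorem exists_third {u w : E3} (hu : ‖u‖ = 1) (hw : ‖w‖ = 1) (h : ⟪u, w⟫_ℝ = 0) :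
    ∃ v, Fr u v w := by
  refine ⟨!₂[u 1 * w 2 - u 2 * w 1, u 2 * w 0 - u 0 * w 2, u 0 * w 1 - u 1 * w 0], hu, ?_, hw,
    ?_, h, ?_⟩
  · rw [norm_one_iff, norm3] at *
    rw [inner3] at h
    simp only [Matrix.cons_val_zero, Matrix.cons_val_one, Matrix.cons_val]
    linear_combination (w 0 ^ 2 + w 1 ^ 2 + w 2 ^ 2) * hu + hw -
      (u 0 * w 0 + u 1 * w 1 + u 2 * w 2) * h
  · rw [inner3]
    simp only [Matrix.cons_val_zero, Matrix.cons_val_one, Matrix.cons_val]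
    ring
  · rw [inner3]
    simp only [Matrix.cons_val_zero, Matrix.cons_val_one, Matrix.cons_val]
    ring

theorem Fr.orthonormal {u v w : E3} (h : Fr u v w) : Orthonormal ℝ ![u, v, w] := by
  obtain ⟨hu, hv, hw, huv, huw, hvw⟩ := h
  constructor
  · intro i
    fin_cases i
    · exact hu
    · exact hv
    · exact hw
  · intro i j hij
    fin_cases i <;> fin_cases j
    · exact absurd rfl hij
    · exact huv
    · exact huw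
    · show ⟪v, u⟫_ℝ = 0
      rw [real_inner_comm]
      exact huv
    · exact absurd rfl hij
    · exact hvw
    · show ⟪w, u⟫_ℝ = 0
      rw [real_inner_comm]
      exact huw
    · show ⟪w, v⟫_ℝ = 0
      rw [real_inner_comm]
      exact hvw
    · exact absurd rfl hij

theorem Fr.inner_eq {u v w : E3} (h : Fr u v w) (x y : E3) :
    ⟪x, y⟫_ℝ = ⟪u, x⟫_ℝ * ⟪u, y⟫_ℝ + ⟪v, x⟫_ℝ * ⟪v, y⟫_ℝ + ⟪w, x⟫_ℝ * ⟪w, y⟫_ℝ := by
  have ho := h.orthonormal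
  have ho' : Orthonormal ℝ ((Set.univ : Set (Fin 3)).domRestrict ![u, v, w]) :=
    ho.comp _ Subtype.val_injective
  obtain ⟨b, hb⟩ := ho'.exists_orthonormalBasis_extension_of_card_eq (by simp)
  have h0 : b 0 = u := hb 0 (Set.mem_univ _)
  have h1 : b 1 = v := hb 1 (Set.mem_univ _)
  have h2 : b 2 = w := hb 2 (Set.mem_univ _)
  have h3 := b.sum_inner_mul_inner x y
  rw [Fin.sum_univ_three, h0, h1, h2] at h3
  rw [← h3, real_inner_comm x u, real_inner_comm x v, real_inner_comm x w]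

theorem Fr.sum_sq {u v w : E3} (h : Fr u v w) {x : E3} (hx : ‖x‖ = 1) :
    ⟪u, x⟫_ℝ ^ 2 + ⟪v, x⟫_ℝ ^ 2 + ⟪w, x⟫_ℝ ^ 2 = 1 := by
  have h1 := h.inner_eq x x
  rw [real_inner_self_eq_norm_sq, hx] at h1
  linarith

theorem sq_le_of {x c : ℝ} (h : |x| ≤ c) : x ^ 2 ≤ c ^ 2 := by
  rw [← sq_abs x]
  exact pow_le_pow_left₀ (abs_nonneg _) h 2

theorem abs_le_one_of {x r : ℝ} (h : x ^ 2 + r = 1) (hr : 0 ≤ r) : |x| ≤ 1 := by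
  rw [← sq_le_one_iff_abs_le_one]
  linarith

theorem lower_abs {x t : ℝ} (h1 : |x| ≤ 1) (h2 : 1 - t ≤ x ^ 2) : 1 - t ≤ |x| := by
  have h3 : x ^ 2 = |x| * |x| := by rw [← sq_abs, sq]
  have h4 : |x| * |x| ≤ |x| * 1 := mul_le_mul_of_nonneg_left h1 (abs_nonneg _)
  linarith

theorem num1 {η k α β γ : ℝ} (h0 : 0 < η) (h1 : η ≤ 1 / 100) (hk : 99 / 100 ≤ k)
    (hk' : k ≤ 1) (hs : β ^ 2 + γ ^ 2 + α ^ 2 = 1) (hα : |α| ≤ η) (hβ : β ≤ 2 * η ^ 2)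
    (h : 5 * η * γ - k * β < 2 * η) : γ ≤ -(1 / 2) ∧ |β| ≤ 8 * η := by
  have hα2 : α ^ 2 ≤ η ^ 2 := sq_le_of hα
  have hηη : η ^ 2 ≤ 1 / 100 * η := by
    rw [sq]
    exact mul_le_mul_of_nonneg_right h1 h0.le
  have hγ0 : |γ| ≤ 1 := abs_le_one_of (r := β ^ 2 + α ^ 2) (by linarith) (by positivity)
  obtain ⟨hγ2, hγ1⟩ := abs_le.1 hγ0
  have e3 : 5 * η * (-1) ≤ 5 * η * γ := mul_le_mul_of_nonneg_left hγ2 (by linarith)
  have hβ1 : -(8 * η) ≤ β := by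
    by_contra hc
    push Not at hc
    have e1 : k * (8 * η) ≤ k * (-β) := mul_le_mul_of_nonneg_left (by linarith) (by linarith)
    have e2 : 99 / 100 * (8 * η) ≤ k * (8 * η) := mul_le_mul_of_nonneg_right hk (by linarith)
    linarith
  have hβ2 : β ≤ 8 * η := by linarith
  have hβ3 : β ^ 2 ≤ (8 * η) ^ 2 := sq_le_of (abs_le.2 ⟨hβ1, hβ2⟩)
  refine ⟨?_, abs_le.2 ⟨hβ1, hβ2⟩⟩
  have hγ3 : 9 / 10 ≤ γ ^ 2 := by
    have e4 : (8 * η) ^ 2 = 64 * η ^ 2 := by ring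
    linarith
  have hγ6 : 9 / 10 ≤ |γ| := by
    have := lower_abs (t := 1 / 10) hγ0 (by linarith)
    linarith
  by_contra hc
  push Not at hc
  have hγ5 : 9 / 10 ≤ γ := by
    rcases abs_cases γ with ⟨h5, _⟩ | ⟨h5, _⟩ <;> linarith
  have e1 : 5 * η * (9 / 10) ≤ 5 * η * γ := mul_le_mul_of_nonneg_left hγ5 (by linarith)
  have e2 : 5 / 2 * η < k * β := by linarith
  have hβ4 : 0 < β := by
    by_contra hc2
    push Not at hc2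
    have : k * β ≤ 0 := mul_nonpos_of_nonneg_of_nonpos (by linarith) hc2
    linarith
  have hβ5 : k * β ≤ 1 * β := mul_le_mul_of_nonneg_right hk' hβ4.le
  linarith

theorem num2 {η c m x₁ x₂ y g₁ g₂ g a₁ a₂ a : ℝ} (h0 : 0 ≤ η) (hc : 0 ≤ c)
    (ha₁ : |a₁| ≤ η) (ha₂ : |a₂| ≤ η) (ha : |a| ≤ η) (hy : |y| ≤ 1) (hx₁ : |x₁| ≤ c)
    (hx₂ : |x₂| ≤ c) (h₁ : x₁ * y + g₁ * g + a₁ * a ≤ 0) (h₂ : x₂ * y + g₂ * g + a₂ * a ≤ 0)
    (hg₁ : g₁ ≤ -m) (hg₂ : m ≤ g₂) : m * |g| ≤ c + η ^ 2 := by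
  have c1 : |a₁ * a| ≤ η * η := by
    rw [abs_mul]
    exact mul_le_mul ha₁ ha (abs_nonneg _) h0
  have c2 : |a₂ * a| ≤ η * η := by
    rw [abs_mul]
    exact mul_le_mul ha₂ ha (abs_nonneg _) h0
  have c3 : |x₁ * y| ≤ c * 1 := by
    rw [abs_mul]
    exact mul_le_mul hx₁ hy (abs_nonneg _) hc
  have c4 : |x₂ * y| ≤ c * 1 := by
    rw [abs_mul]
    exact mul_le_mul hx₂ hy (abs_nonneg _) hc
  have d1 := (abs_le.1 c1).1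
  have d2 := (abs_le.1 c2).1
  have d3 := (abs_le.1 c3).1
  have d4 := (abs_le.1 c4).1
  have hsq : η ^ 2 = η * η := sq η
  rcases abs_cases g with ⟨h5, h6⟩ | ⟨h5, h6⟩
  · rw [h5]
    have e : m * g ≤ g₂ * g := mul_le_mul_of_nonneg_right hg₂ h6
    linarith
  · rw [h5]
    have e : m * (-g) ≤ -g₁ * (-g) := mul_le_mul_of_nonneg_right (by linarith) (by linarith)
    linarith

theorem sq_le_div {η : ℝ} (h0 : 0 < η) (h1 : η ≤ 1 / 100) : η ^ 2 ≤ 1 / 100 * η := by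
  rw [sq]
  exact mul_le_mul_of_nonneg_right h1 h0.le

/-- The first vector. -/
theorem local_first {η : ℝ} (h0 : 0 < η) (h1 : η ≤ 1 / 100) {w q : E3} (hw : ‖w‖ = 1)
    (hq : ‖q‖ = 1) (hα1 : |⟪w, q⟫_ℝ| ≤ η) :
    ∃ (u v : E3) (κ : ℝ), Fr u v w ∧ 99 / 100 ≤ κ ∧ q = ⟪w, q⟫_ℝ • w + κ • u := by
  obtain ⟨α, hα⟩ : ∃ α : ℝ, α = ⟪w, q⟫_ℝ := ⟨_, rfl⟩
  rw [← hα] at hα1
  have hα2 : α ^ 2 ≤ η ^ 2 := sq_le_of hα1
  obtain ⟨z, hz⟩ : ∃ z : E3, z = q - α • w := ⟨_, rfl⟩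
  have hwz : ⟪w, z⟫_ℝ = 0 := by
    rw [hz, inner_sub_right, inner_smul_right, real_inner_self_eq_norm_sq, hw, ← hα]
    ring
  have hzn : ‖z‖ ^ 2 = 1 - α ^ 2 := by
    have e : ⟪z, z⟫_ℝ = ⟪q, q⟫_ℝ - α * ⟪w, q⟫_ℝ - α * ⟪w, z⟫_ℝ := by
      conv_lhs => rw [hz]
      rw [inner_sub_left, inner_smul_left, ← hz]
      have e2 : ⟪q, z⟫_ℝ = ⟪q, q⟫_ℝ - α * ⟪w, q⟫_ℝ := by
        rw [hz, inner_sub_right, inner_smul_right, real_inner_comm w q]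
      rw [e2]
      simp
    rw [real_inner_self_eq_norm_sq, real_inner_self_eq_norm_sq, hwz, hq, ← hα] at e
    linarith
  have hηη := sq_le_div h0 h1
  have hzp : 99 / 100 ≤ ‖z‖ := by
    have e1 : |‖z‖| ≤ 1 := abs_le_one_of (r := α ^ 2) (by linarith) (sq_nonneg _)
    have e2 := lower_abs (t := 1 / 100) e1 (by linarith)
    rw [abs_of_nonneg (norm_nonneg _)] at e2
    linarith
  have hz0 : ‖z‖ ≠ 0 := by linarith
  obtain ⟨u, hu⟩ : ∃ u : E3, u = ‖z‖⁻¹ • z := ⟨_, rfl⟩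
  have hun : ‖u‖ = 1 := by
    rw [hu, norm_smul, norm_inv, norm_norm, inv_mul_cancel₀ hz0]
  have huw : ⟪u, w⟫_ℝ = 0 := by
    rw [hu, inner_smul_left, real_inner_comm, hwz, mul_zero]
  obtain ⟨v, hF⟩ := exists_third hun hw huw
  refine ⟨u, v, ‖z‖, hF, hzp, ?_⟩
  rw [← hα, hu, smul_smul, mul_inv_cancel₀ hz0, one_smul, hz]
  abel

/-- Points of `V` near both ends of the line of `v`. -/
theorem local_key {η : ℝ} (h0 : 0 < η) (h1 : η ≤ 1 / 100) {u v w : E3} (hF : Fr u v w)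
    {V : Set E3} (hVn : ∀ p ∈ V, ‖p‖ = 1) (hVw : ∀ p ∈ V, |⟪w, p⟫_ℝ| ≤ η)
    (hVu : ∀ p ∈ V, ⟪u, p⟫_ℝ ≤ 2 * η ^ 2)
    (hV : ∀ x, ‖x‖ = 1 → ∃ p ∈ V, ⟪p, x⟫_ℝ < 2 * η) (s : ℝ) (hs : s ^ 2 = 1) :
    ∃ p ∈ V, s * ⟪v, p⟫_ℝ ≤ -(1 / 2) ∧ |⟪u, p⟫_ℝ| ≤ 8 * η := by
  have hηη := sq_le_div h0 h1
  obtain ⟨k, hk⟩ : ∃ k : ℝ, k = Real.sqrt (1 - 25 * η ^ 2) := ⟨_, rfl⟩
  have hk0 : 0 ≤ k := by rw [hk]; exact Real.sqrt_nonneg _
  have hk2 : k ^ 2 = 1 - 25 * η ^ 2 := by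
    rw [hk]
    exact Real.sq_sqrt (by linarith)
  have hk3 : |k| ≤ 1 := abs_le_one_of (r := 25 * η ^ 2) (by linarith) (by positivity)
  have hk1 : k ≤ 1 := (abs_le.1 hk3).2
  have hk99 : 99 / 100 ≤ k := by
    have e := lower_abs (t := 1 / 100) hk3 (by linarith)
    rw [abs_of_nonneg hk0] at e
    linarith
  have hvv : ⟪v, v⟫_ℝ = 1 := by rw [real_inner_self_eq_norm_sq, hF.2.1]; norm_num
  have huu : ⟪u, u⟫_ℝ = 1 := by rw [real_inner_self_eq_norm_sq, hF.1]; norm_num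
  have hvu : ⟪v, u⟫_ℝ = 0 := by rw [real_inner_comm]; exact hF.2.2.2.1
  have huv : ⟪u, v⟫_ℝ = 0 := hF.2.2.2.1
  have hx : ‖(5 * η * s) • v - k • u‖ = 1 := by
    rw [norm_one_iff, ← real_inner_self_eq_norm_sq, inner_sub_left, inner_sub_right,
      inner_sub_right, inner_smul_left, inner_smul_left, inner_smul_left, inner_smul_right,
      inner_smul_right, inner_smul_right, inner_smul_left, inner_smul_right, hvv, huu, hvu, huv]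
    simp only [conj_trivial]
    linear_combination hk2 + 25 * η ^ 2 * hs
  obtain ⟨p, hp, hpx⟩ := hV _ hx
  rw [inner_sub_right, inner_smul_right, inner_smul_right, real_inner_comm v p,
    real_inner_comm u p] at hpx
  have e1 := hF.sum_sq (hVn p hp)
  refine ⟨p, hp, num1 (α := ⟪w, p⟫_ℝ) h0 h1 hk99 hk1 ?_ (hVw p hp) (hVu p hp) ?_⟩
  · rw [mul_pow, hs]
    linarith
  · linarith

/-- Two sets of unit vectors which are nearly orthogonal to `w`, have non-positive inner products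
and are not contained in half-spaces are nearly on two orthogonal lines. -/
theorem local_frame {η : ℝ} (h0 : 0 < η) (h1 : η ≤ 1 / 100) {w : E3} (hw : ‖w‖ = 1)
    {V U : Set E3} (hVn : ∀ p ∈ V, ‖p‖ = 1) (hUn : ∀ p ∈ U, ‖p‖ = 1)
    (hVw : ∀ p ∈ V, |⟪w, p⟫_ℝ| ≤ η) (hUw : ∀ p ∈ U, |⟪w, p⟫_ℝ| ≤ η)
    (hVU : ∀ p ∈ V, ∀ q ∈ U, ⟪p, q⟫_ℝ ≤ 0)
    (hV : ∀ x, ‖x‖ = 1 → ∃ p ∈ V, ⟪p, x⟫_ℝ < 2 * η)
    (hU : ∀ x, ‖x‖ = 1 → ∃ p ∈ U, ⟪p, x⟫_ℝ < 2 * η) :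
    ∃ u v, Fr u v w ∧ (∀ p ∈ V, 1 - 400 * η ^ 2 ≤ |⟪v, p⟫_ℝ|) ∧
      (∀ p ∈ U, 1 - 400 * η ^ 2 ≤ |⟪u, p⟫_ℝ|) := by
  have hηη := sq_le_div h0 h1
  have hη2 : 0 ≤ η ^ 2 := sq_nonneg _
  obtain ⟨q, hq, -⟩ := hU w hw
  obtain ⟨u, v, κ, hF, hκ, hqu⟩ := local_first h0 h1 hw (hUn q hq) (hUw q hq)
  have hVu : ∀ p ∈ V, ⟪u, p⟫_ℝ ≤ 2 * η ^ 2 := by
    intro p hp
    have e1 := hVU p hp q hq
    rw [hqu, inner_add_right, inner_smul_right, inner_smul_right, real_inner_comm w p,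
      real_inner_comm u p] at e1
    have e3 : |⟪w, q⟫_ℝ * ⟪w, p⟫_ℝ| ≤ η * η := by
      rw [abs_mul]
      exact mul_le_mul (hUw q hq) (hVw p hp) (abs_nonneg _) h0.le
    have e4 := (abs_le.1 e3).1
    have e6 : η ^ 2 = η * η := sq η
    by_contra hc
    push Not at hc
    have e5 : 99 / 100 * ⟪u, p⟫_ℝ ≤ κ * ⟪u, p⟫_ℝ :=
      mul_le_mul_of_nonneg_right hκ (by linarith)
    linarith
  obtain ⟨p1, hp1, hp1v, hp1u⟩ := local_key h0 h1 hF hVn hVw hVu hV 1 (by norm_num)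
  obtain ⟨p2, hp2, hp2v, hp2u⟩ := local_key h0 h1 hF hVn hVw hVu hV (-1) (by norm_num)
  rw [one_mul] at hp1v
  have hp2v' : 1 / 2 ≤ ⟪v, p2⟫_ℝ := by linarith
  -- `U` is nearly on the line of `u`
  have hUv : ∀ q' ∈ U, |⟪v, q'⟫_ℝ| ≤ 17 * η := by
    intro q' hq'
    have a1 := hVU p1 hp1 q' hq'
    have a2 := hVU p2 hp2 q' hq'
    rw [hF.inner_eq] at a1 a2
    have hq1 := hF.sum_sq (hUn q' hq')
    have b4 : |⟪u, q'⟫_ℝ| ≤ 1 :=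
      abs_le_one_of (r := ⟪v, q'⟫_ℝ ^ 2 + ⟪w, q'⟫_ℝ ^ 2) (by linarith) (by positivity)
    have := num2 h0.le (by linarith : 0 ≤ 8 * η)
      (hVw p1 hp1) (hVw p2 hp2) (hUw q' hq') b4 hp1u hp2u a1 a2 hp1v hp2v'
    linarith
  have hUu : ∀ q' ∈ U, 1 - 290 * η ^ 2 ≤ |⟪u, q'⟫_ℝ| := by
    intro q' hq'
    have hq1 := hF.sum_sq (hUn q' hq')
    have b1 := sq_le_of (hUw q' hq')
    have b2 := sq_le_of (hUv q' hq')
    have b3 : (17 * η) ^ 2 = 289 * η ^ 2 := by ring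
    have b4 : |⟪u, q'⟫_ℝ| ≤ 1 :=
      abs_le_one_of (r := ⟪v, q'⟫_ℝ ^ 2 + ⟪w, q'⟫_ℝ ^ 2) (by linarith) (by positivity)
    exact lower_abs b4 (by linarith)
  have key2 : ∀ s : ℝ, |s| = 1 → ∃ q' ∈ U, s * ⟪u, q'⟫_ℝ ≤ -(9 / 10) := by
    intro s hs
    obtain ⟨q', hq', hqx⟩ := hU (s • u) (by
      rw [norm_smul, hF.1, Real.norm_eq_abs, hs, mul_one])
    rw [inner_smul_right, real_inner_comm u q'] at hqx
    refine ⟨q', hq', ?_⟩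
    have b1 := hUu q' hq'
    have b3 : |s * ⟪u, q'⟫_ℝ| = |⟪u, q'⟫_ℝ| := by rw [abs_mul, hs, one_mul]
    rw [← b3] at b1
    rcases abs_cases (s * ⟪u, q'⟫_ℝ) with ⟨h, _⟩ | ⟨h, _⟩
    · rw [h] at b1
      exfalso
      linarith
    · rw [h] at b1
      linarith
  obtain ⟨q1, hq1, hq1u⟩ := key2 1 (by norm_num)
  obtain ⟨q2, hq2, hq2u⟩ := key2 (-1) (by norm_num)
  rw [one_mul] at hq1u
  have hq2u' : 9 / 10 ≤ ⟪u, q2⟫_ℝ := by linarith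
  refine ⟨u, v, hF, ?_, fun q' hq' => le_trans (by linarith) (hUu q' hq')⟩
  intro p hp
  have hs := hF.sum_sq (hVn p hp)
  have a1 := hVU p hp q1 hq1
  have a2 := hVU p hp q2 hq2
  rw [hF.inner_eq] at a1 a2
  have b4 : |⟪v, p⟫_ℝ| ≤ 1 :=
    abs_le_one_of (r := ⟪u, p⟫_ℝ ^ 2 + ⟪w, p⟫_ℝ ^ 2) (by linarith) (by positivity)
  have hpu := num2 (g := ⟪u, p⟫_ℝ) (y := ⟪v, p⟫_ℝ) (a := ⟪w, p⟫_ℝ) h0.le
    (by linarith : 0 ≤ 17 * η)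
    (hUw q1 hq1) (hUw q2 hq2) (hVw p hp) b4 (hUv q1 hq1) (hUv q2 hq2)
    (by linarith) (by linarith) hq1u hq2u'
  have hpu' : |⟪u, p⟫_ℝ| ≤ 19 * η := by linarith
  have f1 := sq_le_of hpu'
  have f2 := sq_le_of (hVw p hp)
  have f3 : (19 * η) ^ 2 = 361 * η ^ 2 := by ring
  exact lower_abs b4 (by linarith)

end Helper76.Strip
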