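import Pool.Agent.helper76.RNGS.Graph

/-!
# Orthogonal strips in relative neighbourhood graphs: the decomposition
-/

namespace Helper76.Strip

open scoped InnerProductSpace
open Helper5.RNGraph

/-- finite nets of the unit sphere -/
theorem exists_net {η : ℝ} (h0 : 0 < η) :
    ∃ D : Finset E3, (∀ d ∈ D, ‖d‖ = 1) ∧ ∀ x : E3, ‖x‖ = 1 → ∃ d ∈ D, ‖x - d‖ ≤ η := by
  have hc : IsCompact (Metric.sphere (0 : E3) 1) := isCompact_sphere _ _
  obtain ⟨t, ht, hf, hcov⟩ := hc.finite_cover_balls h0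
  refine ⟨hf.toFinset, fun d hd => ?_, fun x hx => ?_⟩
  · have := ht (hf.mem_toFinset.1 hd)
    rwa [mem_sphere_zero_iff_norm] at this
  · have hx' : x ∈ Metric.sphere (0 : E3) 1 := mem_sphere_zero_iff_norm.2 hx
    obtain ⟨d, hd, hxd⟩ := Set.mem_iUnion₂.1 (hcov hx')
    refine ⟨d, hf.mem_toFinset.2 hd, ?_⟩
    rw [← dist_eq_norm]
    exact (Metric.mem_ball.1 hxd).le

/-- finite nets of the orthonormal frames -/
theorem exists_frames {η : ℝ} (h0 : 0 < η) :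
    ∃ F : Finset (E3 × E3 × E3), (∀ f ∈ F, Fr f.1 f.2.1 f.2.2) ∧
      ∀ u v w : E3, Fr u v w → ∃ f ∈ F, ‖u - f.1‖ ≤ η ∧ ‖v - f.2.1‖ ≤ η ∧ ‖w - f.2.2‖ ≤ η := by
  have hc : IsCompact {f : E3 × E3 × E3 | Fr f.1 f.2.1 f.2.2} := by
    refine Metric.isCompact_of_isClosed_isBounded ?_ ?_
    · unfold Fr
      refine IsClosed.inter ?_ (IsClosed.inter ?_ (IsClosed.inter ?_ (IsClosed.inter ?_
        (IsClosed.inter ?_ ?_))))
      · exact isClosed_eq (by fun_prop) (by fun_prop)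
      · exact isClosed_eq (by fun_prop) (by fun_prop)
      · exact isClosed_eq (by fun_prop) (by fun_prop)
      · exact isClosed_eq (by fun_prop) (by fun_prop)
      · exact isClosed_eq (by fun_prop) (by fun_prop)
      · exact isClosed_eq (by fun_prop) (by fun_prop)
    · refine (Metric.isBounded_iff_subset_closedBall 0).2 ⟨1, ?_⟩
      rintro ⟨u, v, w⟩ ⟨hu, hv, hw, -⟩
      rw [mem_closedBall_zero_iff, Prod.norm_def, Prod.norm_def]
      simp only at hu hv hw ⊢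
      rw [hu, hv, hw]
      simp
  obtain ⟨t, ht, hf, hcov⟩ := hc.finite_cover_balls h0
  refine ⟨hf.toFinset, fun d hd => ht (hf.mem_toFinset.1 hd), fun u v w hx => ?_⟩
  have hx' : ((u, v, w) : E3 × E3 × E3) ∈ {f : E3 × E3 × E3 | Fr f.1 f.2.1 f.2.2} := hx
  obtain ⟨f, hfm, hxf⟩ := Set.mem_iUnion₂.1 (hcov hx')
  have h1 := (Metric.mem_ball.1 hxf).le
  rw [Prod.dist_eq, Prod.dist_eq] at h1
  have h2 := (max_le_iff.1 h1)
  have h3 := (max_le_iff.1 h2.2)
  refine ⟨f, hf.mem_toFinset.2 hfm, ?_, ?_, ?_⟩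
  · rw [← dist_eq_norm]
    exact h2.1
  · rw [← dist_eq_norm]
    exact h3.1
  · rw [← dist_eq_norm]
    exact h3.2

/-- The set `T` of ordered pairs of points is a strip of `P` with the parameters `ε, ρ, L` and the
frame `u, v, w`. -/
structure IsStrip (P : Finset E3) (ε ρ : ℝ) (L : ℕ) (u v w : E3) (T : Finset (E3 × E3)) :
    Prop where
  /-- the pairs are edges -/
  adj : ∀ a b, (a, b) ∈ T → (relNbhd P).Adj a b
  /-- their direction is nearly `w` -/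
  dir : ∀ a b, (a, b) ∈ T → (1 - ε) * dist a b ≤ ⟪w, b - a⟫_ℝ
  /-- pairs with a common end have nearby other ends -/
  left : ∀ a a' b, (a, b) ∈ T → (a', b) ∈ T → dist a a' ≤ ρ * dist a b
  /-- pairs with a common end have nearby other ends -/
  right : ∀ a b b', (a, b) ∈ T → (a, b') ∈ T → dist b b' ≤ ρ * dist a b
  /-- The neighbours `a'` of `b` near `a` have the same distance to `b`, and `a' - a` is nearly on
  the line of `v`. -/
  thin_left : ∀ a b, (a, b) ∈ T → ∀ a', (relNbhd P).Adj a' b → dist a a' ≤ ρ * dist a b →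
    dist a' b = dist a b ∧ (1 - ε) * dist a a' ≤ |⟪v, a' - a⟫_ℝ|
  /-- The neighbours `b'` of `a` near `b` have the same distance to `a`, and `b' - b` is nearly on
  the line of `u`. -/
  thin_right : ∀ a b, (a, b) ∈ T → ∀ b', (relNbhd P).Adj a b' → dist b b' ≤ ρ * dist a b →
    dist a b' = dist a b ∧ (1 - ε) * dist b b' ≤ |⟪u, b' - b⟫_ℝ|
  /-- at least `L` of these neighbours of `b` are on each side of `a` -/
  rich_left : ∀ a b, (a, b) ∈ T → ∀ s : ℝ, |s| = 1 → ∃ S : Finset E3, L ≤ S.card ∧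
    ∀ a' ∈ S, (relNbhd P).Adj a' b ∧ a' ≠ a ∧ dist a a' ≤ ρ * dist a b ∧
      (1 - ε) * dist a a' ≤ s * ⟪v, a' - a⟫_ℝ
  /-- at least `L` of these neighbours of `a` are on each side of `b` -/
  rich_right : ∀ a b, (a, b) ∈ T → ∀ s : ℝ, |s| = 1 → ∃ S : Finset E3, L ≤ S.card ∧
    ∀ b' ∈ S, (relNbhd P).Adj a b' ∧ b' ≠ b ∧ dist b b' ≤ ρ * dist a b ∧
      (1 - ε) * dist b b' ≤ s * ⟪u, b' - b⟫_ℝ
  /-- the two chains are in polar position -/
  polar : ∀ a b, (a, b) ∈ T → ∀ a' b', (relNbhd P).Adj a' b → (relNbhd P).Adj a b' →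
    dist a a' ≤ ρ * dist a b → dist b b' ≤ ρ * dist a b → ⟪a' - a, b' - b⟫_ℝ ≤ 0

/-- the analysis at one edge -/
theorem edge_frame {P : Finset E3} {η : ℝ} (h0 : 0 < η) (h1 : η ≤ 1 / 100) {a b : E3}
    (hab : (relNbhd P).Adj a b)
    (hV : ∀ x : E3, ‖x‖ = 1 → ∃ a', (relNbhd P).Adj a' b ∧ a' ≠ a ∧
      dist a a' ≤ 2 * η * dist a b ∧ ⟪a' - a, x⟫_ℝ < 2 * η * ‖a' - a‖)
    (hU : ∀ x : E3, ‖x‖ = 1 → ∃ b', (relNbhd P).Adj a b' ∧ b' ≠ b ∧
      dist b b' ≤ 2 * η * dist a b ∧ ⟪b' - b, x⟫_ℝ < 2 * η * ‖b' - b‖) :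
    ∃ u v, Fr u v (‖b - a‖⁻¹ • (b - a)) ∧
      (∀ a', (relNbhd P).Adj a' b → dist a a' ≤ 2 * η * dist a b →
        (1 - 400 * η ^ 2) * ‖a' - a‖ ≤ |⟪v, a' - a⟫_ℝ|) ∧
      (∀ b', (relNbhd P).Adj a b' → dist b b' ≤ 2 * η * dist a b →
        (1 - 400 * η ^ 2) * ‖b' - b‖ ≤ |⟪u, b' - b⟫_ℝ|) := by
  have hη2 : 2 * η < 1 := by linarith
  have hpos : 0 < dist a b := dist_pos.2 hab.2.2.1
  have hlt : 2 * η * dist a b < dist a b := by nlinarith
  have rab : 0 < ‖b - a‖ := norm_pos_iff.2 (sub_ne_zero.2 hab.2.2.1.symm)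
  have hwn : ‖‖b - a‖⁻¹ • (b - a)‖ = 1 := by
    rw [norm_smul, norm_inv, norm_norm, inv_mul_cancel₀ rab.ne']
  have hun : ∀ {x y : E3}, x ≠ y → ‖‖x - y‖⁻¹ • (x - y)‖ = 1 := by
    intro x y h
    have r : 0 < ‖x - y‖ := norm_pos_iff.2 (sub_ne_zero.2 h)
    rw [norm_smul, norm_inv, norm_norm, inv_mul_cancel₀ r.ne']
  obtain ⟨u, v, hF, hv, hu⟩ := local_frame h0 h1 hwn
    (V := {p | ∃ a', (relNbhd P).Adj a' b ∧ a' ≠ a ∧ dist a a' ≤ 2 * η * dist a b ∧
      p = ‖a' - a‖⁻¹ • (a' - a)})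
    (U := {p | ∃ b', (relNbhd P).Adj a b' ∧ b' ≠ b ∧ dist b b' ≤ 2 * η * dist a b ∧
      p = ‖b' - b‖⁻¹ • (b' - b)})
    (by
      rintro p ⟨a', -, hne, -, rfl⟩
      exact hun hne)
    (by
      rintro p ⟨b', -, hne, -, rfl⟩
      exact hun hne)
    (by
      rintro p ⟨a', ha', hne, hd, rfl⟩
      have r : 0 < ‖a' - a‖ := norm_pos_iff.2 (sub_ne_zero.2 hne)
      have e := near_orth hab ha' hη2 hd
      rw [inner_smul_left, inner_smul_right, abs_mul, abs_mul]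
      simp only [conj_trivial, abs_inv, abs_norm]
      rw [inv_mul_le_iff₀ rab, inv_mul_le_iff₀ r]
      linarith)
    (by
      rintro p ⟨b', hb', hne, hd, rfl⟩
      have r : 0 < ‖b' - b‖ := norm_pos_iff.2 (sub_ne_zero.2 hne)
      have e := near_orth hab.symm hb'.symm hη2 (by rw [dist_comm b a]; exact hd)
      have e2 : ⟪a - b, b' - b⟫_ℝ = -⟪b - a, b' - b⟫_ℝ := by
        rw [← inner_neg_left, neg_sub]
      rw [e2, abs_neg, norm_sub_rev a b] at e
      rw [inner_smul_left, inner_smul_right, abs_mul, abs_mul]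
      simp only [conj_trivial, abs_inv, abs_norm]
      rw [inv_mul_le_iff₀ rab, inv_mul_le_iff₀ r]
      linarith)
    (by
      rintro p ⟨a', ha', hne, hd, rfl⟩ q ⟨b', hb', hne', hd', rfl⟩
      have e := polar hab ha' hb' (hd.trans_lt hlt) (hd'.trans_lt hlt)
      rw [inner_smul_left, inner_smul_right]
      simp only [conj_trivial]
      exact mul_nonpos_of_nonneg_of_nonpos (inv_nonneg.2 (norm_nonneg _))
        (mul_nonpos_of_nonneg_of_nonpos (inv_nonneg.2 (norm_nonneg _)) e))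
    (by
      intro x hx
      obtain ⟨a', ha', hne, hd, hlt'⟩ := hV x hx
      have r : 0 < ‖a' - a‖ := norm_pos_iff.2 (sub_ne_zero.2 hne)
      refine ⟨_, ⟨a', ha', hne, hd, rfl⟩, ?_⟩
      rw [inner_smul_left]
      simp only [conj_trivial]
      rw [inv_mul_lt_iff₀ r]
      linarith)
    (by
      intro x hx
      obtain ⟨b', hb', hne, hd, hlt'⟩ := hU x hx
      have r : 0 < ‖b' - b‖ := norm_pos_iff.2 (sub_ne_zero.2 hne)
      refine ⟨_, ⟨b', hb', hne, hd, rfl⟩, ?_⟩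
      rw [inner_smul_left]
      simp only [conj_trivial]
      rw [inv_mul_lt_iff₀ r]
      linarith)
  refine ⟨u, v, hF, ?_, ?_⟩
  · intro a' ha' hd
    by_cases hne : a' = a
    · rw [hne]
      simp
    have r : 0 < ‖a' - a‖ := norm_pos_iff.2 (sub_ne_zero.2 hne)
    have e := hv _ ⟨a', ha', hne, hd, rfl⟩
    rw [inner_smul_right, abs_mul, abs_inv, abs_norm, le_inv_mul_iff₀ r] at e
    linarith
  · intro b' hb' hd
    by_cases hne : b' = b
    · rw [hne]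
      simp
    have r : 0 < ‖b' - b‖ := norm_pos_iff.2 (sub_ne_zero.2 hne)
    have e := hu _ ⟨b', hb', hne, hd, rfl⟩
    rw [inner_smul_right, abs_mul, abs_inv, abs_norm, le_inv_mul_iff₀ r] at e
    linarith

end Helper76.Strip
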